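import Mathlib
import Pool.Agent.Lib.H42S.G1
import Pool.Agent.Lib.H71T.Main

/-!
# Small transversals in partitionable graphs with clique number 3 or stability number 3

Every partitionable graph `G` with `α(G), ω(G) > 2` and `ω(G) = 3` or `α(G) = 3` has a small
transversal.
-/

set_option autoImplicit false

namespace Pool.Agent.Results.MP_602a3b_co.CliqueOrStableNumberThree

open Pool.Agent.H79S Pool.Agent.H42S

theorem lineST : LineST :=
  fun P hal _ _ _ _ ht hab hac hbc h1 h2 => Pool.Agent.H71T.st_of_line P hal ht hab hac hbc h1 h2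

/-- Let `G` be a partitionable graph with `α(G) > 2` and `ω(G) > 2`.  If `ω(G) = 3` or `α(G) = 3`,
then `G` has a small transversal. -/
theorem result :
    ∀ (V : Type) [Fintype V] (G : SimpleGraph V),
      (∃ r s : ℕ, Fintype.card V = r * s + 1 ∧
        ∀ v : V,
          (∃ P : Fin r → Finset V,
            (∀ i, G.IsNClique s (P i)) ∧
            (∀ i j, i ≠ j → Disjoint (P i) (P j)) ∧
            (∀ i, v ∉ P i) ∧
            (∀ w : V, w ≠ v → ∃ i, w ∈ P i)) ∧
          (∃ Q : Fin s → Finset V,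
            (∀ i, Gᶜ.IsNClique r (Q i)) ∧
            (∀ i j, i ≠ j → Disjoint (Q i) (Q j)) ∧
            (∀ i, v ∉ Q i) ∧
            (∀ w : V, w ≠ v → ∃ i, w ∈ Q i))) →
      2 < Gᶜ.cliqueNum → 2 < G.cliqueNum →
      (G.cliqueNum = 3 ∨ Gᶜ.cliqueNum = 3) →
      ∃ T : Finset V, T.card = Gᶜ.cliqueNum + G.cliqueNum - 1 ∧
          (∀ K : Finset V, G.IsNClique G.cliqueNum K → ¬ Disjoint T K) ∧
          (∀ S : Finset V, Gᶜ.IsNClique Gᶜ.cliqueNum S → ¬ Disjoint T S) := by
  intro V _ G ⟨r, s, hcard, hpart⟩ hα hω hyp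
  rcases hyp with h3 | h3
  · exact st_graph lineST V G r s ⟨hcard, hpart⟩ hα h3
  · have hp : Part V Gᶜ s r := by
      refine ⟨by rw [hcard, Nat.mul_comm], fun v => ⟨(hpart v).2, ?_⟩⟩
      rw [compl_compl]
      exact (hpart v).1
    have h4 := st_graph lineST V Gᶜ s r hp (by rw [compl_compl]; exact hω) h3
    obtain ⟨T, h5, h6, h7⟩ := h4
    rw [compl_compl] at h5 h7
    exact ⟨T, by omega, h7, h6⟩

end Pool.Agent.Results.MP_602a3b_co.CliqueOrStableNumberThree
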